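import Pool.Agent.MP_542436_nt.H40.Spec

/-! Primes in an extension of number fields. -/

set_option autoImplicit false

namespace Pool.Agent.MP_542436_nt.H40

open NumberField IsDedekindDomain

namespace BC

variable {K L : Type} [Field K] [NumberField K] [Field L] [NumberField L] [Algebra K L]

theorem pw (p : Pr K) (P : Pr L) [P.asIdeal.LiesOver p.asIdeal] (x : K) :
    FinitePlace.mk P (algebraMap K L x) = FinitePlace.mk p x ^
      (p.asIdeal.ramificationIdx' P.asIdeal * p.asIdeal.inertiaDeg' P.asIdeal) := by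
  have he := Ideal.IsDedekindDomain.ramificationIdx'_ne_zero_of_liesOver P.asIdeal p.ne_bot
  have hf : p.asIdeal.inertiaDeg' P.asIdeal ≠ 0 := Ideal.inertiaDeg'_ne_zero _ _
  rcases eq_or_ne x 0 with rfl | hx
  · rw [map_zero, map_zero, map_zero, zero_pow (mul_ne_zero he hf)]
  have hv : p.valuation K x ≠ 0 := (Valuation.ne_zero_iff _).2 hx
  have hN := Ideal.absNorm_eq_pow_inertiaDeg'_of_liesOver P.asIdeal p.asIdeal p.isPrime p.ne_bot
  rw [FinitePlace.mk_apply, FinitePlace.mk_apply, FinitePlace.norm_embedding',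
    FinitePlace.norm_embedding', ← HeightOneSpectrum.valuation_liesOver L p P, map_pow,
    WithZeroMulInt.toNNReal_neg_apply _ hv, WithZeroMulInt.toNNReal_neg_apply _ hv, hN, mul_comm,
    pow_mul]
  push_cast
  rw [← zpow_natCast, ← zpow_natCast, ← zpow_natCast, ← zpow_natCast, ← zpow_mul, ← zpow_mul,
    ← zpow_mul, ← zpow_mul]
  congr 1
  ring

theorem lN_nonneg (p : Pr K) : 0 ≤ lN p := Real.log_natCast_nonneg _

theorem cnt (p : Pr K) : ∃ T : Finset (Pr L), (∀ P : Pr L, P.asIdeal.LiesOver p.asIdeal → P ∈ T) ∧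
    ∑ P ∈ T, lN P ≤ Module.finrank ℚ L * lN p := by
  classical
  have hm := p.isMaximal
  have inj : Function.Injective fun P : Pr L => P.asIdeal := fun _ _ h =>
    HeightOneSpectrum.ext h
  let A := IsDedekindDomain.primesOverFinset p.asIdeal (𝓞 L)
  have mem : ∀ P : Ideal (𝓞 L), P ∈ A ↔ P.IsPrime ∧ P.LiesOver p.asIdeal := fun P =>
    IsDedekindDomain.mem_primesOverFinset_iff p.ne_bot _
  refine ⟨A.preimage _ inj.injOn, fun P hP => Finset.mem_preimage.2 ((mem _).2 ⟨P.isPrime, hP⟩),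
    ?_⟩
  have h1 : ∀ P ∈ A.preimage _ inj.injOn, lN P ≤
      ((p.asIdeal.ramificationIdx' P.asIdeal * p.asIdeal.inertiaDeg' P.asIdeal : ℕ) : ℝ) *
        lN p := fun P hP => by
    have := ((mem _).1 (Finset.mem_preimage.1 hP)).2
    have he := Ideal.IsDedekindDomain.ramificationIdx'_ne_zero_of_liesOver P.asIdeal p.ne_bot
    have hN := Ideal.absNorm_eq_pow_inertiaDeg'_of_liesOver P.asIdeal p.asIdeal p.isPrime p.ne_bot
    have e : lN P = (p.asIdeal.inertiaDeg' P.asIdeal : ℝ) * lN p := by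
      rw [lN, hN, Nat.cast_pow, Real.log_pow, lN]
    rw [e]
    exact mul_le_mul_of_nonneg_right (Nat.cast_le.2 (Nat.le_mul_of_pos_left _
      (Nat.pos_of_ne_zero he))) (lN_nonneg p)
  refine (Finset.sum_le_sum h1).trans ?_
  rw [← Finset.sum_mul, ← Nat.cast_sum]
  refine mul_le_mul_of_nonneg_right (Nat.cast_le.2 ?_) (lN_nonneg p)
  have h2 := Ideal.sum_ramification_inertia (𝓞 L) K L p.ne_bot
  have h3 : Module.finrank K L ≤ Module.finrank ℚ L := by
    rw [← Module.finrank_mul_finrank ℚ K L]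
    exact Nat.le_mul_of_pos_left _ Module.finrank_pos
  refine le_trans ?_ (h2.le.trans h3)
  rw [← Finset.sum_image (s := A.preimage _ inj.injOn) (g := fun P : Pr L => P.asIdeal)
    (f := fun P => p.asIdeal.ramificationIdx' P * p.asIdeal.inertiaDeg' P) inj.injOn]
  exact Finset.sum_le_sum_of_subset fun Q hQ => by
    obtain ⟨P, hP, rfl⟩ := Finset.mem_image.1 hQ
    exact Finset.mem_preimage.1 hP

end BC

theorem rowBC : RowBC := by
  intro K L _ _ _ _ _
  have ov : ∀ P : Pr L, P.asIdeal.LiesOver (HeightOneSpectrum.under (𝓞 K) P).asIdeal :=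
    fun P => ⟨rfl⟩
  refine ⟨HeightOneSpectrum.under (𝓞 K), fun p => ?_, fun P => ?_, fun p => ?_⟩
  · have := p.isMaximal
    obtain ⟨Q, hQ, ho⟩ := Ideal.exists_maximal_ideal_liesOver_of_isIntegral (S := 𝓞 L) p.asIdeal
    exact ⟨⟨Q, hQ.isPrime, Ideal.ne_bot_of_liesOver_of_ne_bot p.ne_bot Q⟩,
      HeightOneSpectrum.ext ho.over.symm⟩
  · have := ov P
    exact ⟨_, Nat.pos_of_ne_zero (mul_ne_zero
      (Ideal.IsDedekindDomain.ramificationIdx'_ne_zero_of_liesOver P.asIdeal
        (HeightOneSpectrum.under (𝓞 K) P).ne_bot) (Ideal.inertiaDeg'_ne_zero _ _)), BC.pw _ P⟩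
  · obtain ⟨T, h1, h2⟩ := BC.cnt (L := L) p
    exact ⟨T, fun P hP => h1 P (hP ▸ ov P), h2⟩

end Pool.Agent.MP_542436_nt.H40
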