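import Pool.Agent.MP_542436_nt.H40.Spec

/-! The relative height does not decrease in an extension. -/

set_option autoImplicit false

namespace Pool.Agent.MP_542436_nt.H40

open NumberField IsDedekindDomain

namespace BCH

theorem cmp {α β : Type} {f : α → ℝ} {g : β → ℝ} {s : α → β} (hs : Function.Injective s)
    (f0 : ∀ a, 0 ≤ f a) (g0 : ∀ b, 0 ≤ g b) (h : ∀ a, f a ≤ g (s a))
    (hg : (Function.support g).Finite) : ∑ᶠ a, f a ≤ ∑ᶠ b, g b := by
  classical
  have hf : (Function.support f).Finite :=
    (hg.preimage hs.injOn).subset fun a ha e => ha (le_antisymm ((h a).trans e.le) (f0 a))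
  rw [finsum_eq_sum _ hf, finsum_eq_sum_of_support_subset g
    (s := hf.toFinset.image s ∪ hg.toFinset) fun b hb => by simp [Function.mem_support.1 hb]]
  refine (Finset.sum_le_sum fun a _ => h a).trans ?_
  rw [← Finset.sum_image fun _ _ _ _ e => hs e]
  exact Finset.sum_le_sum_of_subset_of_nonneg Finset.subset_union_left fun b _ _ => g0 b

theorem fin {K : Type} [Field K] [NumberField K] (x : K) :
    (Function.support fun p : Pr K => Real.posLog (FinitePlace.mk p x)).Finite := by
  rcases eq_or_ne x 0 with rfl | hx
  · simp
  · refine ((FinitePlace.hasFiniteMulSupport hx).preimage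
      FinitePlace.equivHeightOneSpectrum.symm.injective.injOn).subset fun p hp e => hp ?_
    change FinitePlace.mk p x = 1 at e
    simp [e]

theorem one (h : RowBC) (K L : Type) [Field K] [NumberField K] [Field L] [NumberField L]
    [Algebra K L] (x : K) : Height.logHeight₁ x ≤ Height.logHeight₁ (algebraMap K L x) := by
  obtain ⟨dn, h1, h2, -⟩ := h K L
  have : Algebra.IsAlgebraic K L := Algebra.IsAlgebraic.tower_top (K := ℚ) K
  rw [NumberField.logHeight₁_eq, NumberField.logHeight₁_eq, ← finsum_eq_sum_of_fintype,
    ← finsum_eq_sum_of_fintype, ← finsum_comp_equiv FinitePlace.equivHeightOneSpectrum.symm,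
    ← finsum_comp_equiv FinitePlace.equivHeightOneSpectrum.symm]
  refine add_le_add ?_ ?_
  · have h3 := InfinitePlace.comap_surjective (k := K) (K := L)
    refine cmp (Function.injective_surjInv h3)
      (fun _ => mul_nonneg (Nat.cast_nonneg _) Real.posLog_nonneg)
      (fun _ => mul_nonneg (Nat.cast_nonneg _) Real.posLog_nonneg) (fun v => ?_) (Set.toFinite _)
    have e : (Function.surjInv h3 v).comap (algebraMap K L) = v := Function.surjInv_eq h3 v
    rw [← InfinitePlace.comap_apply, e]
    refine mul_le_mul_of_nonneg_right ?_ Real.posLog_nonneg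
    have := InfinitePlace.mult_comap_le (algebraMap K L) (Function.surjInv h3 v)
    rw [e] at this
    exact_mod_cast this
  · refine cmp (Function.injective_surjInv h1) (fun _ => Real.posLog_nonneg)
      (fun _ => Real.posLog_nonneg) (fun p => ?_) (fin (algebraMap K L x))
    obtain ⟨e, he, h4⟩ := h2 (Function.surjInv h1 p)
    change Real.posLog (FinitePlace.mk p x) ≤
      Real.posLog (FinitePlace.mk (Function.surjInv h1 p) (algebraMap K L x))
    rw [h4, Function.surjInv_eq h1, Real.posLog_pow]
    exact le_mul_of_one_le_left Real.posLog_nonneg (by exact_mod_cast he)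

end BCH

theorem rowBCH : RowBC → RowBCH := by
  intro h K L _ _ _ _ _ v
  have e1 : v = ![v 0, v 1] := by
    funext i
    fin_cases i <;> rfl
  have e2 : (fun i => algebraMap K L (v i)) = ![algebraMap K L (v 0), algebraMap K L (v 1)] := by
    funext i
    fin_cases i <;> rfl
  rw [e2, ← Height.logHeight₁_div_eq_logHeight, ← map_div₀]
  exact (congrArg Height.logHeight e1).trans_le
    ((Height.logHeight₁_div_eq_logHeight _ _).symm.trans_le (BCH.one h K L _))

end Pool.Agent.MP_542436_nt.H40
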