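import Pool.Agent.MP_542436_nt.H40.Spec

/-! The local distances of two points. -/

set_option autoImplicit false

namespace Pool.Agent.MP_542436_nt.H40

open NumberField

namespace DET

theorem pos {K : Type} [Field K] {f : K → ℝ} (hf : ∀ x, x ≠ 0 → 0 < f x) {u : Fin 2 → K}
    (hu : u ≠ 0) : 0 < max (f (u 0)) (f (u 1)) := by
  obtain ⟨i, hi⟩ := Function.ne_iff.1 hu
  fin_cases i
  exacts [lt_max_of_lt_left (hf _ hi), lt_max_of_lt_right (hf _ hi)]

theorem mul {K F : Type} [Field K] [FunLike F K ℝ] [MulHomClass F K ℝ] [NonnegHomClass F K ℝ]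
    (f : F) (u v : Fin 2 → K) :
    f (u 0 * v 1) ≤ max (f (u 0)) (f (u 1)) * max (f (v 0)) (f (v 1)) ∧
      f (u 1 * v 0) ≤ max (f (u 0)) (f (u 1)) * max (f (v 0)) (f (v 1)) := by
  simp only [map_mul]
  exact ⟨mul_le_mul (le_max_left _ _) (le_max_right _ _) (apply_nonneg _ _) (by positivity),
    mul_le_mul (le_max_right _ _) (le_max_left _ _) (apply_nonneg _ _) (by positivity)⟩

end DET

open DET in
theorem rowDET : RowHT → RowDET := by
  classical
  intro hH K _ _ u v hD
  have hu : u ≠ 0 := by rintro rfl; simp [dt] at hD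
  have hv : v ≠ 0 := by rintro rfl; simp [dt] at hD
  have h1 : ∀ p : Pr K, FinitePlace.mk p (dt u v) ≤ nr p u * nr p v := fun p => by
    rw [dt, sub_eq_add_neg]
    refine (FinitePlace.add_le _ _ _).trans ?_
    rw [map_neg_eq_map]
    exact max_le (mul _ u v).1 (mul _ u v).2
  refine ⟨h1, fun U => ?_⟩
  obtain ⟨f1, e1⟩ := hH K u hu
  obtain ⟨f2, e2⟩ := hH K v hv
  obtain ⟨f3, e3⟩ := hH K (dt u v • 1) (smul_ne_zero hD one_ne_zero)
  rw [Height.logHeight_smul_eq_logHeight _ hD, Height.logHeight_one] at e3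
  simp only [nr, Pi.smul_apply, Pi.one_apply, smul_eq_mul, mul_one, max_self] at f3 e3
  let V := U ∪ (f1.toFinset ∪ (f2.toFinset ∪ f3.toFinset))
  rw [finsum_eq_sum_of_support_subset (s := V) _ fun p hp => by simp_all [V]] at e1 e2 e3
  have h2 : ∑ w : InfinitePlace K, (w.mult : ℝ) * Real.log (w (dt u v)) ≤
      ∑ w : InfinitePlace K, ((w.mult : ℝ) * Real.log (max (w (u 0)) (w (u 1))) +
        (w.mult : ℝ) * Real.log (max (w (v 0)) (w (v 1))) + w.mult) := by
    refine Finset.sum_le_sum fun w _ => ?_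
    rw [← mul_add, ← mul_add_one]
    refine mul_le_mul_of_nonneg_left ?_ (Nat.cast_nonneg _)
    have a := pos (f := w) (fun _ => InfinitePlace.pos_iff.2) hu
    have b := pos (f := w) (fun _ => InfinitePlace.pos_iff.2) hv
    have c : w (dt u v) ≤ max (w (u 0)) (w (u 1)) * max (w (v 0)) (w (v 1)) * 2 := by
      have := w.1.sub_le_add (u 0 * v 1) (u 1 * v 0)
      have := mul w u v
      change w (dt u v) ≤ w _ + w _ at *
      linarith
    have := Real.log_le_log (InfinitePlace.pos_iff.2 hD) c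
    rw [Real.log_mul (by positivity) two_ne_zero, Real.log_mul a.ne' b.ne'] at this
    linarith [Real.log_two_lt_d9]
  rw [Finset.sum_add_distrib, Finset.sum_add_distrib, ← Nat.cast_sum,
    InfinitePlace.sum_mult_eq] at h2
  refine (Finset.sum_le_sum_of_subset_of_nonneg (t := V) Finset.subset_union_left
    fun p _ _ => ?_).trans ?_
  · have a : 0 < nr p u := pos (fun _ => FinitePlace.pos_iff.2) hu
    have b : 0 < nr p v := pos (fun _ => FinitePlace.pos_iff.2) hv
    rw [← Real.log_mul a.ne' b.ne', sub_nonneg]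
    exact Real.log_le_log (FinitePlace.pos_iff.2 hD) (h1 p)
  · rw [Finset.sum_sub_distrib, Finset.sum_add_distrib]
    linarith

end Pool.Agent.MP_542436_nt.H40
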