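import Pool.Agent.MP_542436_nt.H40.Spec

/-! The assembly of the geometric statement. -/

set_option autoImplicit false

namespace Pool.Agent.MP_542436_nt.H40.GEO

open NumberField IsDedekindDomain MvPolynomial

/-- a pair seen in an extension -/
def up {K : Type} (L : Type) [Field K] [Field L] [Algebra K L] (s : Fin 2 → K) : Fin 2 → L :=
  fun i => algebraMap K L (s i)

section

variable {K L : Type} [Field K] [Field L] [Algebra K L]

theorem up_ne {s : Fin 2 → K} (hs : s ≠ 0) : up L s ≠ 0 := by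
  intro h
  apply hs
  funext i
  have := congrFun h i
  simpa [up] using this

theorem aeval_eq (F : MvPolynomial (Fin 2 ⊕ Fin 2) K) (x : Fin 2 ⊕ Fin 2 → L) :
    aeval x F = eval x (map (algebraMap K L) F) := by
  rw [eval_map, aeval_def]

theorem eval_up (F : MvPolynomial (Fin 2 ⊕ Fin 2) K) (s t : Fin 2 → K) :
    eval (Sum.elim (up L s) (up L t)) (map (algebraMap K L) F) =
      algebraMap K L (eval (Sum.elim s t) F) := by
  have h : Sum.elim (up L s) (up L t) = algebraMap K L ∘ Sum.elim s t := by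
    funext v
    rcases v with v | v <;> rfl
  rw [← aeval_eq, h]
  have := aeval_algebraMap_apply (R := K) (A := K) L (Sum.elim s t) F
  rw [this]
  rfl

theorem hom_map {F : MvPolynomial (Fin 2 ⊕ Fin 2) K} {n : ℕ × ℕ}
    (hF : F.IsWeightedHomogeneous bw n) :
    (map (algebraMap K L) F).IsWeightedHomogeneous bw n := by
  intro d hd
  apply hF
  intro h
  apply hd
  rw [coeff_map, h, map_zero]

theorem ne_of_dt {A : Type} [CommRing A] {u v : Fin 2 → A} (h : dt u v ≠ 0) : u ≠ 0 := by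
  rintro rfl
  exact h (by simp [dt])

theorem other_idx (i : Fin 3) : ∃ j : Fin 3, i ≠ j := by
  fin_cases i
  · exact ⟨1, by decide⟩
  · exact ⟨0, by decide⟩
  · exact ⟨0, by decide⟩

end

variable {K L : Type} [Field K] [NumberField K] [Field L] [NumberField L] [Algebra K L]

theorem lN_nonneg (p : Pr K) : 0 ≤ lN p :=
  Real.log_natCast_nonneg _

theorem lift (L : Type) [Field L] [NumberField L] [Algebra K L] (hBC : RowBC) (hNC : RowNC)
    (F : MvPolynomial (Fin 2 ⊕ Fin 2) K) (q r : ℕ) (hF : F.IsWeightedHomogeneous bw (q, r)) :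
    ∃ C : ℝ, ∀ s t : Fin 2 → K, s ≠ 0 → t ≠ 0 → eval (Sum.elim s t) F ≠ 0 →
      0 ≤ N1 F q r s t + C ∧ ∃ S : Finset (Pr L),
        (∀ P ∉ S, (∀ d, FinitePlace.mk P (coeff d (map (algebraMap K L) F)) ≤ 1) ∧
          nr P (up L s) ^ q * nr P (up L t) ^ r ≤
            FinitePlace.mk P (eval (Sum.elim (up L s) (up L t)) (map (algebraMap K L) F))) ∧
        ∑ P ∈ S, lN P ≤ Module.finrank ℚ L * (N1 F q r s t + C) := by
  classical
  obtain ⟨C, hC⟩ := hNC K F q r hF
  obtain ⟨dn, -, he, hT⟩ := hBC K L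
  choose T hT1 hT2 using hT
  refine ⟨C, fun s t hs ht hne => ?_⟩
  obtain ⟨S, hS1, hS2⟩ := hC s t hs ht hne
  refine ⟨le_trans (Finset.sum_nonneg fun p _ => lN_nonneg p) hS2, S.biUnion T, ?_, ?_⟩
  · intro P hP
    have hp : dn P ∉ S := fun h => hP (Finset.mem_biUnion.2 ⟨dn P, h, hT1 _ _ rfl⟩)
    obtain ⟨h1, h2⟩ := hS1 _ hp
    obtain ⟨e, he1, he2⟩ := he P
    have hnr : ∀ v : Fin 2 → K, nr P (up L v) = nr (dn P) v ^ e := by
      intro v
      simp only [nr, up, he2]
      rcases le_total (FinitePlace.mk (dn P) (v 0)) (FinitePlace.mk (dn P) (v 1)) with h | h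
      · rw [max_eq_right h, max_eq_right (pow_le_pow_left₀ (apply_nonneg _ _) h e)]
      · rw [max_eq_left h, max_eq_left (pow_le_pow_left₀ (apply_nonneg _ _) h e)]
    refine ⟨fun d => ?_, ?_⟩
    · rw [coeff_map, he2]
      exact pow_le_one₀ (apply_nonneg _ _) (h1 d)
    · rw [eval_up, he2, hnr, hnr, ← pow_mul, ← pow_mul, mul_comm e q, mul_comm e r, pow_mul,
        pow_mul, ← mul_pow]
      have h0 : ∀ v : Fin 2 → K, 0 ≤ nr (dn P) v := fun v =>
        le_trans (apply_nonneg _ _) (le_max_left _ _)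
      exact pow_le_pow_left₀ (mul_nonneg (pow_nonneg (h0 s) _) (pow_nonneg (h0 t) _)) h2 e
  · have h1 : ∑ P ∈ S.biUnion T, lN P ≤ ∑ p ∈ S, ∑ P ∈ T p, lN P := by
      clear hS1 hS2
      induction S using Finset.induction_on with
      | empty => simp
      | insert a S ha ih =>
        rw [Finset.biUnion_insert, Finset.sum_insert ha]
        have h2 := Finset.sum_union_inter (s₁ := T a) (s₂ := S.biUnion T) (f := lN)
        have h3 : 0 ≤ ∑ P ∈ T a ∩ S.biUnion T, lN P := Finset.sum_nonneg fun p _ => lN_nonneg p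
        linarith
    have h2 : ∑ p ∈ S, ∑ P ∈ T p, lN P ≤ ∑ p ∈ S, (Module.finrank ℚ L : ℝ) * lN p :=
      Finset.sum_le_sum fun p _ => hT2 p
    rw [← Finset.mul_sum] at h2
    have h3 : (Module.finrank ℚ L : ℝ) * ∑ p ∈ S, lN p ≤
        Module.finrank ℚ L * (N1 F q r s t + C) :=
      mul_le_mul_of_nonneg_left hS2 (Nat.cast_nonneg _)
    linarith

theorem exp_le {n ε σ x : ℝ} (hn : 0 < n) (hε : 0 < ε) (h : σ ≤ n * x) :
    Real.exp (ε / (2 * n) * σ) ≤ Real.exp (ε / 2 * x) := by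
  apply Real.exp_le_exp.2
  have h1 : ε / (2 * n) * σ ≤ ε / (2 * n) * (n * x) :=
    mul_le_mul_of_nonneg_left h (by positivity)
  have h2 : ε / (2 * n) * (n * x) = ε / 2 * x := by field_simp
  linarith

end Pool.Agent.MP_542436_nt.H40.GEO

namespace Pool.Agent.MP_542436_nt.H40

open NumberField IsDedekindDomain MvPolynomial GEO

theorem rowGEO : RowBC → RowBCH → RowLOC → RowNC → RowGG → RowPTS → RowMAIN := by
  intro hBC hBCH hLOC hNC hGG hPTS K L _ _ _ _ _ F q r hF hV hH
  classical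
  obtain ⟨σ, hσ1, hσ2⟩ := hV
  obtain ⟨C, hC⟩ := lift L hBC hNC F q r hF
  have hF' : (map (algebraMap K L) F).IsWeightedHomogeneous bw (q, r) := hom_map hF
  have hn : (0 : ℝ) < Module.finrank ℚ L := by exact_mod_cast Module.finrank_pos
  have hσ0 : ∀ i, σ i ≠ 0 := fun i => by
    obtain ⟨j, hj⟩ := other_idx i
    exact ne_of_dt (hσ1 i j hj)
  have key : ∀ ε : ℝ, 0 < ε → ∃ C₁ A : ℝ, 0 ≤ C₁ ∧ 0 ≤ A ∧ ∀ s t : Fin 2 → K, s ≠ 0 → t ≠ 0 →
      eval (Sum.elim s t) F ≠ 0 → 1 ≤ Real.exp (ε / 2 * (N1 F q r s t + C)) ∧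
      Height.logHeight (up L s) ≤ A * Real.exp (ε / 2 * (N1 F q r s t + C)) ∧
      ∀ τ : Fin 3 → Fin 2 → L, (∀ i j, i ≠ j → dt (τ i) (τ j) ≠ 0) →
        (∀ i, eval (Sum.elim (up L s) (τ i)) (map (algebraMap K L) F) = 0) →
        Height.logHeight (up L t) ≤
          C₁ * (1 + ∑ i, Height.logHeight (τ i)) * Real.exp (ε / 2 * (N1 F q r s t + C)) := by
    intro ε hε
    obtain ⟨C₁, hC₁, hP⟩ := hPTS L (ε / (2 * Module.finrank ℚ L)) (by positivity)
    have hsum : ∀ τ : Fin 3 → Fin 2 → L, 0 ≤ 1 + ∑ i, Height.logHeight (τ i) := fun τ =>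
      add_nonneg zero_le_one (Finset.sum_nonneg fun i _ => Height.logHeight_nonneg _)
    refine ⟨C₁, C₁ * (1 + ∑ i, Height.logHeight (σ i)), hC₁, mul_nonneg hC₁ (hsum σ), ?_⟩
    intro s t hs ht hne
    obtain ⟨h0, S, hS1, hS2⟩ := hC s t hs ht hne
    have hne' : eval (Sum.elim (up L s) (up L t)) (map (algebraMap K L) F) ≠ 0 := by
      rw [eval_up]
      simpa using hne
    have hE := exp_le hn hε hS2
    refine ⟨Real.one_le_exp (by positivity), ?_, ?_⟩
    · refine le_trans (hP (up L s) σ S hσ1 ?_ ?_)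
        (mul_le_mul_of_nonneg_left hE (mul_nonneg hC₁ (hsum σ)))
      · intro i h
        exact hne' (hLOC.fst0 L _ q r _ (σ i) _ hF' (hσ0 i) (by rw [← aeval_eq]; exact hσ2 i _) h
          (up_ne hs))
      · intro P hP i
        by_contra h
        obtain ⟨h1, h2⟩ := hS1 P hP
        exact absurd (hLOC.fst L P _ q r _ (σ i) _ hF' h1 (hσ0 i) (up_ne hs) (up_ne ht)
          (by rw [← aeval_eq]; exact hσ2 i _) (not_le.1 h)) (not_lt.2 h2)
    · intro τ hτ1 hτ2
      have hτ0 : ∀ i, τ i ≠ 0 := fun i => by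
        obtain ⟨j, hj⟩ := other_idx i
        exact ne_of_dt (hτ1 i j hj)
      refine le_trans (hP (up L t) τ S hτ1 ?_ ?_)
        (mul_le_mul_of_nonneg_left hE (mul_nonneg hC₁ (hsum τ)))
      · intro i h
        exact hne' (hLOC.snd0 L _ q r _ _ (τ i) hF' (hτ0 i) (hτ2 i) h (up_ne ht))
      · intro P hP i
        by_contra h
        obtain ⟨h1, h2⟩ := hS1 P hP
        exact absurd (hLOC.snd L P _ q r _ _ (τ i) hF' h1 (hτ0 i) (up_ne hs) (up_ne ht)
          (hτ2 i) (not_le.1 h)) (not_lt.2 h2)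
  have hsq : ∀ ε x : ℝ, Real.exp (ε / 2 * (x + C)) * Real.exp (ε / 2 * (x + C)) =
      Real.exp (ε * C) * Real.exp (ε * x) := fun ε x => by
    rw [← Real.exp_add, ← Real.exp_add]
    congr 1
    ring
  have hq : (0 : ℝ) ≤ q := Nat.cast_nonneg _
  have hr : (0 : ℝ) ≤ r := Nat.cast_nonneg _
  rcases hH with hr2 | ⟨τ, a, hτ1, hτ2, hτ3⟩
  · refine ⟨1, 0, 0, one_ne_zero, isWeightedHomogeneous_one K bw, fun ε hε => ?_⟩
    obtain ⟨C₁, A, -, hA, hk⟩ := key ε hε
    refine ⟨q * A * Real.exp (ε * C), fun s t hs ht _ hne => ?_⟩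
    obtain ⟨h1, h2, -⟩ := hk s t hs ht hne
    have h3 : Height.logHeight s ≤ Height.logHeight (up L s) := hBCH K L s
    have h4 := Height.logHeight_nonneg s
    have h5 := Height.logHeight_nonneg t
    have h6 : (r : ℝ) ≤ 2 := by exact_mod_cast hr2
    have h7 := hsq ε (N1 F q r s t)
    set E := Real.exp (ε / 2 * (N1 F q r s t + C))
    have h8 : A * E ≤ A * (E * E) := mul_le_mul_of_nonneg_left (by nlinarith) hA
    have h9 : (q : ℝ) * Height.logHeight s ≤ q * (A * (E * E)) :=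
      mul_le_mul_of_nonneg_left (by linarith) hq
    have h10 : ((r : ℝ) - 2) * Height.logHeight t ≤ 0 :=
      mul_nonpos_of_nonpos_of_nonneg (by linarith) h5
    rw [h7] at h9
    linarith
  · set I : Finset (Fin 3 × Fin 3) := Finset.univ.filter fun ij => ij.1 ≠ ij.2 with hI
    have hW0 : ∏ ij ∈ I, dt (τ ij.1) (τ ij.2) ≠ 0 :=
      Finset.prod_ne_zero_iff.2 fun ij hij => hτ2 _ _ (by simpa [hI] using hij)
    have hW1 : (∏ ij ∈ I, dt (τ ij.1) (τ ij.2)).IsHomogeneous (∑ ij ∈ I, (a ij.1 + a ij.2)) :=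
      IsHomogeneous.prod _ _ _ fun ij _ =>
        ((hτ1 _ 0).mul (hτ1 _ 1)).sub ((hτ1 _ 1).mul (hτ1 _ 0))
    obtain ⟨G, hG0, hG1, hG2⟩ := hGG K L _ _ hW0 hW1
    refine ⟨G, _, 0, hG0, hG1, fun ε hε => ?_⟩
    obtain ⟨C₁, A, hC₁, hA, hk⟩ := key ε hε
    choose c hc using fun i => Height.logHeight_eval_le' (p := τ i) (hτ1 i)
    refine ⟨(q * A + r * (C₁ * (1 + ∑ i, (|c i| + a i * A)))) * Real.exp (ε * C),
      fun s t hs ht hG hne => ?_⟩
    obtain ⟨h1, h2, h2'⟩ := hk s t hs ht hne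
    have hW : eval (up L s) (∏ ij ∈ I, dt (τ ij.1) (τ ij.2)) ≠ 0 := fun h => hG (hG2 s t h)
    rw [map_prod, Finset.prod_ne_zero_iff] at hW
    have h11 := h2' (fun i k => eval (up L s) (τ i k))
      (fun i j hij => by
        have := hW (i, j) (by simpa [hI] using hij)
        simpa [dt] using this)
      (fun i => by rw [← aeval_eq]; exact hτ3 i _)
    have h3 : Height.logHeight s ≤ Height.logHeight (up L s) := hBCH K L s
    have h3' : Height.logHeight t ≤ Height.logHeight (up L t) := hBCH K L t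
    have h4 := Height.logHeight_nonneg s
    have h5 := Height.logHeight_nonneg t
    have h7 := hsq ε (N1 F q r s t)
    set E := Real.exp (ε / 2 * (N1 F q r s t + C))
    have h12 : 1 + ∑ i, Height.logHeight (fun k => eval (up L s) (τ i k)) ≤
        (1 + ∑ i, (|c i| + a i * A)) * E := by
      rw [add_mul, Finset.sum_mul]
      refine add_le_add (by linarith) (Finset.sum_le_sum fun i _ => ?_)
      have h13 := hc i (up L s)
      have h14 : (a i : ℝ) * Height.logHeight (up L s) ≤ a i * (A * E) :=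
        mul_le_mul_of_nonneg_left h2 (Nat.cast_nonneg _)
      have h15 : |c i| ≤ |c i| * E := le_mul_of_one_le_right (abs_nonneg _) h1
      have h16 := le_abs_self (c i)
      nlinarith
    set B := 1 + ∑ i, (|c i| + a i * A)
    have h17 : Height.logHeight (up L t) ≤ C₁ * B * (E * E) := by
      refine le_trans h11 ?_
      have h18 := mul_le_mul_of_nonneg_right (mul_le_mul_of_nonneg_left h12 hC₁)
        (le_trans zero_le_one h1)
      linarith
    have h8 : A * E ≤ A * (E * E) := mul_le_mul_of_nonneg_left (by nlinarith) hA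
    have h9 : (q : ℝ) * Height.logHeight s ≤ q * (A * (E * E)) :=
      mul_le_mul_of_nonneg_left (by linarith) hq
    have h10 : (r : ℝ) * Height.logHeight t ≤ r * (C₁ * B * (E * E)) :=
      mul_le_mul_of_nonneg_left (by linarith) hr
    rw [h7] at h9 h10
    linarith

end Pool.Agent.MP_542436_nt.H40
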