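import Pool.Agent.MP_542436_nt.H40.Spec

/-! Descent of a binary form along a linear functional. -/

set_option autoImplicit false

namespace Pool.Agent.MP_542436_nt.H40

open MvPolynomial

theorem rowGG : RowGG := by
  intro K L _ _ _ W e h0 hW
  obtain ⟨c, hc⟩ := ne_zero_iff.1 h0
  obtain ⟨φ, hφ⟩ := not_forall.1 (mt (Module.forall_dual_apply_eq_zero_iff K _).1 hc)
  refine ⟨rename Sum.inl (∑ d ∈ W.support, monomial d (φ (coeff d W))), fun h => hφ ?_, ?_,
    fun s t h => ?_⟩
  · have := congrArg (coeff c) ((rename_injective _ Sum.inl_injective).eq_iff' (map_zero _) |>.1 h)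
    simpa [coeff_sum, coeff_monomial, hc] using this
  · rw [map_sum]
    refine IsWeightedHomogeneous.sum _ _ _ fun d hd => ?_
    rw [rename_monomial]
    refine isWeightedHomogeneous_monomial _ _ _ ?_
    rw [← hW (mem_support_iff.1 hd), Finsupp.weight_apply, Finsupp.sum_mapDomain_index (by simp)
      fun _ _ _ => add_smul _ _ _]
    simp [bw, Finsupp.weight_apply, Finsupp.sum_fintype]
  · rw [eval_rename, ← map_zero φ, ← h, map_sum, eval_eq' _ W, map_sum]
    refine Finset.sum_congr rfl fun d _ => ?_
    simp only [← map_pow, ← map_prod]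
    rw [mul_comm (coeff d W), ← Algebra.smul_def, map_smul, eval_monomial, Finsupp.prod_fintype _ _
      fun _ => pow_zero _, mul_comm]
    rfl

end Pool.Agent.MP_542436_nt.H40
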