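import Pool.Agent.MP_542436_nt.H40.Spec

/-! Row LOC: a form is small near one of its zeros. -/

set_option autoImplicit false

namespace Pool.Agent.MP_542436_nt.H40

open NumberField MvPolynomial

namespace LOC

variable {K : Type} [Field K] {F : MvPolynomial (Fin 2 ⊕ Fin 2) K} {q r : ℕ}

theorem prod_pow {M : Type} [CommMonoid M] (a b : M) (hF : F.IsWeightedHomogeneous bw (q, r))
    {d : Fin 2 ⊕ Fin 2 →₀ ℕ} (hd : d ∈ F.support) :
    ∏ i, Sum.elim (fun _ => a) (fun _ => b) i ^ d i = a ^ q * b ^ r := by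
  have h := hF (mem_support_iff.1 hd)
  rw [Finsupp.weight_apply, Finsupp.sum_fintype _ _ (by simp)] at h
  simp only [Fintype.sum_sum_type, Fin.sum_univ_two, bw, Sum.elim_inl, Sum.elim_inr,
    Prod.smul_mk, smul_eq_mul, mul_one, mul_zero, Prod.mk_add_mk, add_zero, zero_add,
    Prod.mk.injEq] at h
  simp only [Fintype.prod_sum_type, Fin.prod_univ_two, Sum.elim_inl, Sum.elim_inr, ← pow_add,
    h.1, h.2]

theorem scale (hF : F.IsWeightedHomogeneous bw (q, r)) (a b : K) (s t : Fin 2 → K) :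
    eval (Sum.elim (fun i => a * s i) fun i => b * t i) F =
      a ^ q * b ^ r * eval (Sum.elim s t) F := by
  rw [eval_eq', eval_eq', Finset.mul_sum]
  refine Finset.sum_congr rfl fun d hd => ?_
  rw [← prod_pow a b hF hd, mul_left_comm, ← Finset.prod_mul_distrib]
  congr 1
  refine Finset.prod_congr rfl fun i _ => ?_
  rw [← mul_pow]
  cases i <;> rfl

theorem prop {s σ : Fin 2 → K} (h : σ ≠ 0) (h0 : dt s σ = 0) : ∃ c, s = fun i => c * σ i := by
  unfold dt at h0
  obtain ⟨k, hk⟩ := Function.ne_iff.1 h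
  refine ⟨s k / σ k, funext fun i => ?_⟩
  rw [div_mul_eq_mul_div, eq_div_iff hk]
  fin_cases k <;> fin_cases i
  · rfl
  · exact (sub_eq_zero.1 h0).symm
  · exact sub_eq_zero.1 h0
  · rfl

variable [NumberField K] (w : FinitePlace K)

/-- pairs of elements that are close relative to a bound -/
def cl : Submonoid (K × K × ℝ) where
  carrier := {z | w z.1 ≤ z.2.2 ∧ w (z.1 - z.2.1) < z.2.2}
  one_mem' := by simp
  mul_mem' := by
    rintro ⟨a, a', β⟩ ⟨b, b', γ⟩ ⟨h1, h2⟩ ⟨h3, h4⟩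
    have hβ : 0 < β := (apply_nonneg w _).trans_lt h2
    have hγ : 0 < γ := (apply_nonneg w _).trans_lt h4
    have h5 : w b' ≤ γ := by
      have h6 := w.add_le b (-(b - b'))
      rw [map_neg_eq_map, show b + -(b - b') = b' by ring] at h6
      exact h6.trans (max_le h3 h4.le)
    refine ⟨?_, ?_⟩
    · change w (a * b) ≤ β * γ
      rw [map_mul]
      exact mul_le_mul h1 h3 (apply_nonneg w _) hβ.le
    · change w (a * b - a' * b') < β * γ
      rw [show a * b - a' * b' = a * (b - b') + (a - a') * b' by ring]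
      refine (w.add_le _ _).trans_lt (max_lt ?_ ?_)
      · rw [map_mul]
        exact mul_lt_mul' h1 h4 (apply_nonneg w _) hβ
      · rw [map_mul]
        exact mul_lt_mul_of_lt_of_le_of_nonneg_of_pos h2 h5 (apply_nonneg w _) hγ

theorem sum_lt {ι : Type} (s : Finset ι) (a : ι → K) {β : ℝ} (hβ : 0 < β)
    (h : ∀ i ∈ s, w (a i) < β) : w (∑ i ∈ s, a i) < β :=
  Finset.sum_induction a (fun x => w x < β) (fun _ _ hx hy => (w.add_le _ _).trans_lt (max_lt hx hy))
    (by simpa using hβ) h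

theorem main (hF : F.IsWeightedHomogeneous bw (q, r)) (hc : ∀ d, w (coeff d F) ≤ 1)
    {x y : Fin 2 ⊕ Fin 2 → K} {α β : ℝ}
    (h : ∀ i, (x i, y i, Sum.elim (fun _ => α) (fun _ => β) i) ∈ cl w) (h0 : eval y F = 0) :
    w (eval x F) < α ^ q * β ^ r := by
  have hα : 0 < α := (apply_nonneg w _).trans_lt (h (Sum.inl 0)).2
  have hβ : 0 < β := (apply_nonneg w _).trans_lt (h (Sum.inr 0)).2
  rw [← sub_zero (eval x F), ← h0, eval_eq', eval_eq', ← Finset.sum_sub_distrib]
  refine sum_lt w _ _ (by positivity) fun d hd => ?_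
  have h1 := ((cl w).prod_mem (t := Finset.univ) fun i _ => (cl w).pow_mem (h i) (d i)).2
  simp only [Prod.fst_prod, Prod.snd_prod, Prod.pow_fst, Prod.pow_snd] at h1
  rw [prod_pow α β hF hd] at h1
  rw [← mul_sub, map_mul]
  exact (mul_le_of_le_one_left (apply_nonneg w _) (hc d)).trans_lt h1

theorem le_max (s : Fin 2 → K) (i : Fin 2) : w (s i) ≤ max (w (s 0)) (w (s 1)) := by
  fin_cases i
  exacts [le_max_left _ _, le_max_right _ _]

theorem pos {s : Fin 2 → K} (h : s ≠ 0) : 0 < max (w (s 0)) (w (s 1)) := by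
  obtain ⟨k, hk⟩ := Function.ne_iff.1 h
  exact (FinitePlace.pos_iff.2 hk).trans_le (le_max w s k)

theorem self {s : Fin 2 → K} (h : s ≠ 0) (i : Fin 2) :
    (s i, 1 * s i, max (w (s 0)) (w (s 1))) ∈ cl w :=
  ⟨le_max w s i, by simpa only [one_mul, sub_self, map_zero] using pos w h⟩

theorem near {s σ : Fin 2 → K} (hs : s ≠ 0) (h : σ ≠ 0)
    (h0 : w (dt s σ) < max (w (s 0)) (w (s 1)) * max (w (σ 0)) (w (σ 1))) :
    ∃ c, ∀ i, (s i, c * σ i, max (w (s 0)) (w (s 1))) ∈ cl w := by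
  have h1 := pos w h
  have h2 := pos w hs
  obtain ⟨k, hk⟩ : ∃ k, max (w (σ 0)) (w (σ 1)) = w (σ k) :=
    (max_choice _ _).elim (fun e => ⟨0, e⟩) fun e => ⟨1, e⟩
  rw [hk] at h0 h1
  have h3 : σ k ≠ 0 := FinitePlace.pos_iff.1 h1
  refine ⟨s k / σ k, fun i => ⟨le_max w s i, lt_of_mul_lt_mul_right ?_ h1.le⟩⟩
  change w (s i - s k / σ k * σ i) * w (σ k) < max (w (s 0)) (w (s 1)) * w (σ k)
  rw [← map_mul, show (s i - s k / σ k * σ i) * σ k = s i * σ k - s k * σ i by field_simp]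
  fin_cases k <;> fin_cases i
  · simpa only [sub_self, map_zero] using mul_pos h2 h1
  · rw [← map_neg_eq_map, neg_sub]
    exact h0
  · exact h0
  · simpa only [sub_self, map_zero] using mul_pos h2 h1

end LOC

open LOC in
theorem rowLOC : RowLOC where
  fst K _ _ p F q r s σ t hF hc hσ hs ht h0 h := by
    obtain ⟨c, h1⟩ := near _ hs hσ h
    refine main _ hF hc (y := Sum.elim (fun i => c * σ i) fun i => 1 * t i) ?_
      (by rw [scale hF, h0, mul_zero])
    rintro (i | i)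
    exacts [h1 i, self _ ht i]
  snd K _ _ p F q r s t τ hF hc hτ hs ht h0 h := by
    obtain ⟨c, h1⟩ := near _ ht hτ h
    refine main _ hF hc (y := Sum.elim (fun i => 1 * s i) fun i => c * τ i) ?_
      (by rw [scale hF, h0, mul_zero])
    rintro (i | i)
    exacts [self _ hs i, h1 i]
  fst0 K _ F q r s σ t hF hσ h0 h _ := by
    obtain ⟨c, rfl⟩ := prop hσ h
    have h1 := scale hF c 1 σ t
    simpa only [one_mul, h0, mul_zero] using h1
  snd0 K _ F q r s t τ hF hτ h0 h _ := by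
    obtain ⟨c, rfl⟩ := prop hτ h
    have h1 := scale hF 1 c s τ
    simpa only [one_mul, h0, mul_zero] using h1

end Pool.Agent.MP_542436_nt.H40
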