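import Pool.Agent.MP_542436_nt.H40.Spec

/-! The truncated counting function bounds the norm of the primes of contact. -/

set_option autoImplicit false

namespace Pool.Agent.MP_542436_nt.H40

open NumberField IsDedekindDomain MvPolynomial

namespace NC

variable {K : Type} [Field K] [NumberField K]

theorem lN_pos (p : Pr K) : 0 < lN p :=
  Real.log_pos (by exact_mod_cast NumberField.HeightOneSpectrum.one_lt_absNorm p)

theorem log_int (p : Pr K) {z : K} (hz : z ≠ 0) :
    ∃ n : ℤ, Real.log (FinitePlace.mk p z) = n * lN p := by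
  rw [FinitePlace.mk_apply, FinitePlace.norm_embedding',
    WithZeroMulInt.toNNReal_neg_apply _ ((p.valuation K).ne_zero_iff.2 hz)]
  exact ⟨_, by rw [NNReal.coe_zpow, Real.log_zpow]; rfl⟩

theorem nr_eq (p : Pr K) {s : Fin 2 → K} (hs : s ≠ 0) :
    ∃ i, s i ≠ 0 ∧ nr p s = FinitePlace.mk p (s i) := by
  have h : 0 < nr p s := by
    obtain ⟨i, hi⟩ := Function.ne_iff.1 hs
    refine ((FinitePlace.pos_iff (w := FinitePlace.mk p)).2 hi).trans_le ?_
    fin_cases i
    exacts [le_max_left _ _, le_max_right _ _]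
  rcases max_choice (FinitePlace.mk p (s 0)) (FinitePlace.mk p (s 1)) with e | e
  · exact ⟨0, FinitePlace.pos_iff.1 (h.trans_eq e), e⟩
  · exact ⟨1, FinitePlace.pos_iff.1 (h.trans_eq e), e⟩

theorem fin_one (z : K) : {p : Pr K | z ≠ 0 ∧ FinitePlace.mk p z ≠ 1}.Finite := by
  by_cases hz : z = 0
  · simp [hz]
  · exact ((FinitePlace.hasFiniteMulSupport hz).preimage (f := FinitePlace.mk)
      fun _ _ _ _ h => FinitePlace.mk_eq_iff.1 h).subset fun p hp => hp.2

theorem fin_nr {s : Fin 2 → K} (hs : s ≠ 0) : {p : Pr K | nr p s ≠ 1}.Finite :=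
  (Set.finite_iUnion fun i => fin_one (s i)).subset fun p hp => by
    obtain ⟨i, hi, e⟩ := nr_eq p hs
    exact Set.mem_iUnion_of_mem i ⟨hi, e ▸ hp⟩

theorem sum_le (v : FinitePlace K) {ι : Type} (S : Finset ι) (f : ι → K) {B : ℝ} (hB : 0 ≤ B)
    (h : ∀ i ∈ S, v (f i) ≤ B) : v (∑ i ∈ S, f i) ≤ B :=
  Finset.sum_induction f (fun x => v x ≤ B) (fun a b ha hb => (v.add_le a b).trans (max_le ha hb))
    (by rwa [map_zero]) h

theorem eval_le (p : Pr K) {F : MvPolynomial (Fin 2 ⊕ Fin 2) K} {q r : ℕ}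
    (hF : F.IsWeightedHomogeneous bw (q, r)) (s t : Fin 2 → K) {c : ℝ} (hc : 0 ≤ c)
    (h : ∀ d ∈ F.support, FinitePlace.mk p (coeff d F) ≤ c) :
    FinitePlace.mk p (eval (Sum.elim s t) F) ≤ c * (nr p s ^ q * nr p t ^ r) := by
  have h0 : ∀ u : Fin 2 → K, 0 ≤ nr p u := fun u => (apply_nonneg _ _).trans (le_max_left _ _)
  rw [eval_eq']
  refine sum_le _ _ _ (mul_nonneg hc (mul_nonneg (pow_nonneg (h0 s) q) (pow_nonneg (h0 t) r)))
    fun d hd => ?_
  have e := hF (mem_support_iff.1 hd)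
  rw [Finsupp.weight_apply, Finsupp.sum_fintype _ _ (by simp)] at e
  simp only [Fintype.sum_sum_type, Fin.sum_univ_two, bw, Sum.elim_inl, Sum.elim_inr, Prod.smul_mk,
    smul_eq_mul, mul_one, mul_zero, Prod.mk_add_mk, add_zero, zero_add, Prod.mk.injEq] at e
  rw [map_mul, ← e.1, ← e.2]
  refine mul_le_mul (h d hd) ?_ (apply_nonneg _ _) hc
  simp only [Fintype.prod_sum_type, Fin.prod_univ_two, Sum.elim_inl, Sum.elim_inr, map_mul, map_pow,
    pow_add]
  have h1 : ∀ u : Fin 2 → K, FinitePlace.mk p (u 0) ≤ nr p u := fun u => le_max_left _ _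
  have h2 : ∀ u : Fin 2 → K, FinitePlace.mk p (u 1) ≤ nr p u := fun u => le_max_right _ _
  have := h0 s
  have := h0 t
  gcongr
  exacts [h1 s, h2 s, h1 t, h2 t]

theorem term {l x : ℝ} {n : ℤ} (hl : 0 < l) (hx : x < 0) (e : x = n * l) : l ≤ min l (-x) := by
  have h : (n : ℝ) < 0 := neg_of_mul_neg_left (e ▸ hx) hl.le
  have h' : n ≤ -1 := Int.le_sub_one_of_lt (by exact_mod_cast h)
  have h'' : (n : ℝ) ≤ -1 := by exact_mod_cast h'
  exact le_min le_rfl (by nlinarith)

end NC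

open NC in
theorem rowNC : RowNC := by
  intro K _ _ F q r hF
  classical
  have hBad : {p : Pr K | ∃ d, 1 < FinitePlace.mk p (coeff d F)}.Finite :=
    (F.support.finite_toSet.biUnion fun d _ => fin_one (coeff d F)).subset fun p ⟨d, hd⟩ => by
      have h0 : coeff d F ≠ 0 := FinitePlace.pos_iff.1 (one_pos.trans hd)
      exact Set.mem_biUnion (mem_support_iff.2 h0) ⟨h0, hd.ne'⟩
  let c : Pr K → ℝ := fun p => 1 + ∑ d ∈ F.support, FinitePlace.mk p (coeff d F)
  have hc : ∀ p, 1 ≤ c p := fun p =>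
    le_add_of_nonneg_right (Finset.sum_nonneg fun _ _ => apply_nonneg _ _)
  refine ⟨∑ p ∈ hBad.toFinset, (lN p + Real.log (c p)), fun s t hs ht h0 => ?_⟩
  let ρ : Pr K → ℝ := fun p =>
    FinitePlace.mk p (eval (Sum.elim s t) F) / (nr p s ^ q * nr p t ^ r)
  have hpos : ∀ p : Pr K, 0 < nr p s ^ q * nr p t ^ r := fun p => by
    obtain ⟨i, hi, e⟩ := nr_eq p hs
    obtain ⟨j, hj, e'⟩ := nr_eq p ht
    rw [e, e']
    exact mul_pos (pow_pos (FinitePlace.pos_iff.2 hi) _) (pow_pos (FinitePlace.pos_iff.2 hj) _)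
  have hρ : ∀ p, 0 < ρ p := fun p => div_pos (FinitePlace.pos_iff.2 h0) (hpos p)
  have hint : ∀ p, ∃ n : ℤ, Real.log (ρ p) = n * lN p := fun p => by
    obtain ⟨i, hi, e⟩ := nr_eq p hs
    obtain ⟨j, hj, e'⟩ := nr_eq p ht
    simp only [ρ]
    rw [e, e', ← map_pow, ← map_pow, ← map_mul, ← map_div₀]
    exact log_int p (div_ne_zero h0 (mul_ne_zero (pow_ne_zero _ hi) (pow_ne_zero _ hj)))
  have hfin : {p | ρ p ≠ 1}.Finite :=
    ((fin_one (eval (Sum.elim s t) F)).union ((fin_nr hs).union (fin_nr ht))).subset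
      fun p hp => by
        by_contra h
        simp only [Set.mem_union, Set.mem_ofPred_eq, not_or, not_and, not_not] at h
        exact hp (by simp only [ρ, h.1 h0, h.2.1, h.2.2, one_pow, mul_one, div_one])
  have hgood : ∀ p ∉ hBad.toFinset, ∀ d, FinitePlace.mk p (coeff d F) ≤ 1 := fun p hp d =>
    not_lt.1 fun h => hp (hBad.mem_toFinset.2 ⟨d, h⟩)
  have hone : ∀ p ∉ hBad.toFinset ∪ hfin.toFinset, ρ p = 1 := fun p hp =>
    not_not.1 fun h => hp (Finset.mem_union_right _ (hfin.mem_toFinset.2 h))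
  refine ⟨hBad.toFinset ∪ hfin.toFinset, fun p hp => ⟨hgood p fun h =>
    hp (Finset.mem_union_left _ h), (eq_of_div_eq_one (hone p hp)).ge⟩, ?_⟩
  have e : N1 F q r s t =
      ∑ p ∈ hBad.toFinset ∪ hfin.toFinset, min (lN p) (-Real.log (ρ p)) :=
    finsum_eq_sum_of_support_subset _ fun p hp => by
      by_contra h
      refine hp ?_
      change min (lN p) (-Real.log (ρ p)) = 0
      rw [hone p h, Real.log_one, neg_zero, min_eq_right (lN_pos p).le]
  have e' := Finset.sum_ite_mem (hBad.toFinset ∪ hfin.toFinset) hBad.toFinset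
    fun p => lN p + Real.log (c p)
  rw [Finset.inter_eq_right.2 Finset.subset_union_left] at e'
  rw [e, ← e', ← Finset.sum_add_distrib]
  refine Finset.sum_le_sum fun p hp => ?_
  split_ifs with h
  · have h1 : ρ p ≤ c p := (div_le_iff₀ (hpos p)).2 (eval_le p hF s t (zero_le_one.trans (hc p))
      fun d hd => (Finset.single_le_sum (f := fun d => FinitePlace.mk p (coeff d F))
        (fun _ _ => apply_nonneg _ _) hd).trans (le_add_of_nonneg_left zero_le_one))
    have h2 := Real.log_le_log (hρ p) h1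
    have h3 := Real.log_nonneg (hc p)
    have h4 : -Real.log (c p) ≤ min (lN p) (-Real.log (ρ p)) :=
      le_min (by linarith [lN_pos p]) (by linarith)
    linarith
  · have h1 : ρ p ≤ 1 :=
      (div_le_iff₀ (hpos p)).2 (eval_le p hF s t zero_le_one fun d _ => hgood p h d)
    obtain ⟨n, hn⟩ := hint p
    rw [add_zero]
    exact term (lN_pos p) (Real.log_neg (hρ p) (h1.lt_of_ne
      (hfin.mem_toFinset.1 ((Finset.mem_union.1 hp).resolve_left h)))) hn

end Pool.Agent.MP_542436_nt.H40
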