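import Pool.Agent.MP_542436_nt.H40.Spec

/-! Three moving points on the line. -/

set_option autoImplicit false

namespace Pool.Agent.MP_542436_nt.H40

open NumberField IsDedekindDomain MvPolynomial

namespace PTS

variable {K : Type} [Field K] [NumberField K]

theorem lN_nonneg (p : Pr K) : 0 ≤ lN p := Real.log_natCast_nonneg _

theorem ne_of_dt {u v : Fin 2 → K} (h : dt u v ≠ 0) : u ≠ 0 ∧ v ≠ 0 :=
  ⟨fun e => h (by simp [dt, e]), fun e => h (by simp [dt, e])⟩

theorem pos (p : Pr K) {x : K} (h : x ≠ 0) : 0 < FinitePlace.mk p x := FinitePlace.pos_iff.2 h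

theorem nr_pos (p : Pr K) {u : Fin 2 → K} (h : u ≠ 0) : 0 < nr p u := by
  obtain ⟨i, hi⟩ := Function.ne_iff.1 h
  fin_cases i
  · exact lt_max_of_lt_left (pos p hi)
  · exact lt_max_of_lt_right (pos p hi)

/-- the logarithmic distance -/
noncomputable def ld (p : Pr K) (u v : Fin 2 → K) : ℝ :=
  Real.log (nr p u) + Real.log (nr p v) - Real.log (FinitePlace.mk p (dt u v))

theorem ld_nonneg (hD : RowDET) (p : Pr K) {u v : Fin 2 → K} (h : dt u v ≠ 0) : 0 ≤ ld p u v := by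
  have h1 := Real.log_le_log (pos p h) ((hD K u v h).1 p)
  rw [Real.log_mul (nr_pos p (ne_of_dt h).1).ne' (nr_pos p (ne_of_dt h).2).ne'] at h1
  exact sub_nonneg.2 h1

theorem ld_zero (hD : RowDET) (p : Pr K) {u v : Fin 2 → K} (h : dt u v ≠ 0)
    (h' : nr p u * nr p v ≤ FinitePlace.mk p (dt u v)) :
    Real.log (FinitePlace.mk p (dt u v)) = Real.log (nr p u) + Real.log (nr p v) := by
  rw [le_antisymm ((hD K u v h).1 p) h',
    Real.log_mul (nr_pos p (ne_of_dt h).1).ne' (nr_pos p (ne_of_dt h).2).ne']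

theorem log_frac (p : Pr K) {a b c d : K} (ha : a ≠ 0) (hb : b ≠ 0) (hc : c ≠ 0) (hd : d ≠ 0) :
    Real.log (FinitePlace.mk p (a * b / (c * d))) =
      Real.log (FinitePlace.mk p a) + Real.log (FinitePlace.mk p b) -
        (Real.log (FinitePlace.mk p c) + Real.log (FinitePlace.mk p d)) := by
  rw [map_div₀, map_mul, map_mul, Real.log_div (mul_pos (pos p ha) (pos p hb)).ne'
    (mul_pos (pos p hc) (pos p hd)).ne', Real.log_mul (pos p ha).ne' (pos p hb).ne',
    Real.log_mul (pos p hc).ne' (pos p hd).ne']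

theorem mk_neg (p : Pr K) (x : K) : FinitePlace.mk p (-x) = FinitePlace.mk p x := by
  have h : FinitePlace.mk p (-1 : K) = 1 := by
    have h1 : FinitePlace.mk p (-1 : K) * FinitePlace.mk p (-1 : K) = 1 := by
      rw [← map_mul, neg_mul_neg, one_mul, map_one]
    have h2 := pos p (neg_ne_zero.2 (one_ne_zero : (1 : K) ≠ 0))
    nlinarith
  rw [← neg_one_mul, map_mul, h, one_mul]

variable (K) in
theorem back : ∃ C : ℝ, ∀ (x : K) (a b c : Fin 2 → K), a ≠ 0 → b ≠ 0 → c ≠ 0 →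
    Height.logHeight (fun j => x * dt a b * c j + dt b c * a j) ≤ C + (Height.logHeight₁ x +
      Height.logHeight a + (Height.logHeight b + Height.logHeight c)) := by
  let P : Fin 2 → MvPolynomial ((Fin 2 × Fin 2) × (Fin 2 × Fin 2)) K := fun j =>
    X ((0, 0), (1, j)) - X ((0, 1), (0, j)) + X ((1, j), (0, 1)) - X ((1, j), (1, 0))
  obtain ⟨C, hC⟩ := Height.logHeight_eval_le' (K := K) (N := 1) (p := P) fun j =>
    (((isHomogeneous_X _ _).sub (isHomogeneous_X _ _)).add (isHomogeneous_X _ _)).sub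
      (isHomogeneous_X _ _)
  refine ⟨C, fun x a b c ha hb hc => ?_⟩
  have h1 : (![x, 1] : Fin 2 → K) ≠ 0 := fun e => one_ne_zero (congrFun e 1)
  have nz : ∀ {u v : Fin 2 → K}, u ≠ 0 → v ≠ 0 → (fun i : Fin 2 × Fin 2 => u i.1 * v i.2) ≠ 0 :=
    fun hu hv e => by
      obtain ⟨i, hi⟩ := Function.ne_iff.1 hu
      obtain ⟨j, hj⟩ := Function.ne_iff.1 hv
      exact mul_ne_zero hi hj (congrFun e (i, j))
  have h2 := hC fun i => (![x, 1] i.1.1 * a i.1.2) * (b i.2.1 * c i.2.2)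
  rw [Height.logHeight_fun_mul_eq (nz h1 ha) (nz hb hc), Height.logHeight_fun_mul_eq h1 ha,
    Height.logHeight_fun_mul_eq hb hc, ← Height.logHeight₁_eq_logHeight, Nat.cast_one,
    one_mul] at h2
  convert h2 using 3 with j
  simp only [P, dt, map_add, map_sub, eval_X, Matrix.cons_val_zero, Matrix.cons_val_one]
  ring

end PTS

open PTS in
theorem rowPTS : RowDET → RowABCD → RowPTS := by
  intro hD hA K _ _ ε hε
  obtain ⟨C, hC⟩ := hA K ε hε
  obtain ⟨C0, hC0⟩ := back K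
  have hF : (0 : ℝ) ≤ Module.finrank ℚ K := Nat.cast_nonneg _
  refine ⟨|C0| + 1 + |C| * (3 + 4 * Module.finrank ℚ K), by positivity,
    fun t τ S hτ hl hS => ?_⟩
  have h01 := hτ 0 1 (by decide)
  have h12 := hτ 1 2 (by decide)
  have h20 := hτ 2 0 (by decide)
  have l0 := hl 0
  have l1 := hl 1
  have l2 := hl 2
  set x : K := -(dt (τ 1) (τ 2) * dt t (τ 0) / (dt (τ 0) (τ 1) * dt t (τ 2))) with hx
  have ex : x - 1 = dt (τ 2) (τ 0) * dt t (τ 1) / (dt (τ 0) (τ 1) * dt t (τ 2)) := by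
    rw [hx]
    field_simp
    simp only [dt]
    ring
  have x0 : x ≠ 0 := neg_ne_zero.2 (div_ne_zero (mul_ne_zero h12 l0) (mul_ne_zero h01 l2))
  have x1 : x ≠ 1 := sub_ne_zero.1 (ex ▸ div_ne_zero (mul_ne_zero h20 l1) (mul_ne_zero h01 l2))
  have g0 := Height.logHeight_nonneg (τ 0)
  have g1 := Height.logHeight_nonneg (τ 1)
  have g2 := Height.logHeight_nonneg (τ 2)
  rw [Fin.sum_univ_three]
  set H := Height.logHeight (τ 0) + Height.logHeight (τ 1) + Height.logHeight (τ 2) with hH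
  have h1 := hC x S (3 * H + 4 * Module.finrank ℚ K) x0 x1 fun U hU => by
    have a1 := (hD K _ _ h01).2 U
    have a2 := (hD K _ _ h12).2 U
    have a3 := (hD K _ _ h20).2 U
    have a4 : ∑ p ∈ U, (|Real.log (FinitePlace.mk p x)| + |Real.log (FinitePlace.mk p (x - 1))|) ≤
        ∑ p ∈ U, (2 * ld p (τ 0) (τ 1) + ld p (τ 1) (τ 2) + ld p (τ 2) (τ 0)) := by
      refine Finset.sum_le_sum fun p hp => ?_
      have hp' := hS p (Finset.disjoint_left.1 hU hp)
      have b1 := ld_nonneg hD p h01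
      have b2 := ld_nonneg hD p h12
      have b3 := ld_nonneg hD p h20
      have e1 : Real.log (FinitePlace.mk p x) = ld p (τ 0) (τ 1) - ld p (τ 1) (τ 2) := by
        rw [hx, mk_neg, log_frac p h12 l0 h01 l2, ld_zero hD p l0 (hp' 0),
          ld_zero hD p l2 (hp' 2), ld, ld]
        ring
      have e2 : Real.log (FinitePlace.mk p (x - 1)) = ld p (τ 0) (τ 1) - ld p (τ 2) (τ 0) := by
        rw [ex, log_frac p h20 l1 h01 l2, ld_zero hD p l1 (hp' 1), ld_zero hD p l2 (hp' 2), ld, ld]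
        ring
      rw [e1, e2]
      have c1 : |ld p (τ 0) (τ 1) - ld p (τ 1) (τ 2)| ≤ ld p (τ 0) (τ 1) + ld p (τ 1) (τ 2) :=
        abs_le.2 ⟨by linarith, by linarith⟩
      have c2 : |ld p (τ 0) (τ 1) - ld p (τ 2) (τ 0)| ≤ ld p (τ 0) (τ 1) + ld p (τ 2) (τ 0) :=
        abs_le.2 ⟨by linarith, by linarith⟩
      linarith
    rw [Finset.sum_add_distrib (f := fun p => 2 * ld p (τ 0) (τ 1) + ld p (τ 1) (τ 2)),
      Finset.sum_add_distrib (f := fun p => 2 * ld p (τ 0) (τ 1)), ← Finset.mul_sum] at a4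
    simp only [ld] at a4
    linarith
  have h2 := hC0 x (τ 0) (τ 1) (τ 2) (ne_of_dt h01).1 (ne_of_dt h12).1 (ne_of_dt h20).1
  have h3 : (fun j => x * dt (τ 0) (τ 1) * τ 2 j + dt (τ 1) (τ 2) * τ 0 j) =
      (-(dt (τ 1) (τ 2) * dt (τ 2) (τ 0) / dt t (τ 2))) • t := by
    funext j
    rw [hx, Pi.smul_apply, smul_eq_mul]
    field_simp
    fin_cases j <;> simp only [dt, Fin.zero_eta, Fin.mk_one, Fin.isValue] <;> ring
  rw [h3, Height.logHeight_smul_eq_logHeight _
    (neg_ne_zero.2 (div_ne_zero (mul_ne_zero h12 h20) l2))] at h2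
  have hE : 1 ≤ Real.exp (ε * ∑ p ∈ S, lN p) :=
    Real.one_le_exp (mul_nonneg hε.le (Finset.sum_nonneg fun p _ => lN_nonneg p))
  set E := Real.exp (ε * ∑ p ∈ S, lN p)
  set F := (Module.finrank ℚ K : ℝ)
  have hH0 : 0 ≤ H := by positivity
  have d1 : C * (1 + (3 * H + 4 * F)) * E ≤ |C| * (3 + 4 * F) * (1 + H) * E := by
    refine mul_le_mul_of_nonneg_right ?_ (by linarith)
    rw [mul_assoc]
    exact mul_le_mul (le_abs_self C) (by nlinarith) (by positivity) (abs_nonneg C)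
  have d2 : C0 + H ≤ (|C0| + 1) * (1 + H) * E :=
    le_trans (by nlinarith [le_abs_self C0, abs_nonneg C0])
      (le_mul_of_one_le_right (by positivity) hE)
  nlinarith

end Pool.Agent.MP_542436_nt.H40
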