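import Pool.Agent.MP_542436_nt.H40.HT
import Pool.Agent.MP_542436_nt.H40.DET
import Pool.Agent.MP_542436_nt.H40.PTS
import Pool.Agent.MP_542436_nt.H40.BC
import Pool.Agent.MP_542436_nt.H40.BCH
import Pool.Agent.MP_542436_nt.H40.LOC
import Pool.Agent.MP_542436_nt.H40.NC
import Pool.Agent.MP_542436_nt.H40.GG
import Pool.Agent.MP_542436_nt.H40.GEO

/-! The geometric statement from the unit equation with a defect. -/

set_option autoImplicit false

namespace Pool.Agent.MP_542436_nt.H40

theorem ptsOf (h : RowABCD) : RowPTS := rowPTS (rowDET rowHT) h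

theorem mainOf (h : RowABCD) : RowMAIN :=
  rowGEO rowBC (rowBCH rowBC) rowLOC rowNC rowGG (ptsOf h)

end Pool.Agent.MP_542436_nt.H40
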