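import Pool.Agent.MP_542436_nt.H40.Spec

/-! The height of a pair as a sum of logarithms. -/

set_option autoImplicit false

namespace Pool.Agent.MP_542436_nt.H40

open NumberField IsDedekindDomain

namespace HT

theorem sup2 (f : Fin 2 → ℝ) : ⨆ i, f i = max (f 0) (f 1) :=
  le_antisymm (ciSup_le (Fin.forall_fin_two.2 ⟨le_max_left _ _, le_max_right _ _⟩))
    (max_le (le_ciSup (Finite.bddAbove_range f) 0) (le_ciSup (Finite.bddAbove_range f) 1))

variable {K : Type} [Field K]

theorem pos {v : Fin 2 → K} (hv : v ≠ 0) (w : AbsoluteValue K ℝ) : 0 < max (w (v 0)) (w (v 1)) := by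
  by_contra h
  rw [not_lt, max_le_iff] at h
  refine hv (funext (Fin.forall_fin_two.2 ⟨?_, ?_⟩))
  · exact w.eq_zero.1 (h.1.antisymm (w.nonneg _))
  · exact w.eq_zero.1 (h.2.antisymm (w.nonneg _))

theorem fin [NumberField K] (x : K) :
    ∃ S : Set (Pr K), S.Finite ∧ ∀ p ∉ S, FinitePlace.mk p x ≤ 1 ∧
      (x ≠ 0 → FinitePlace.mk p x = 1) := by
  rcases eq_or_ne x 0 with rfl | hx
  · exact ⟨∅, Set.finite_empty, fun p _ => ⟨by simp, fun h => absurd rfl h⟩⟩
  · refine ⟨_, (FinitePlace.hasFiniteMulSupport hx).preimage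
      (FinitePlace.equivHeightOneSpectrum (K := K)).symm.injective.injOn, fun p hp => ?_⟩
    have : FinitePlace.mk p x = 1 := not_not.1 hp
    exact ⟨this.le, fun _ => this⟩

end HT

theorem rowHT : RowHT := by
  intro K _ _ v hv
  constructor
  · obtain ⟨S, hS, h0⟩ := HT.fin (v 0)
    obtain ⟨T, hT, h1⟩ := HT.fin (v 1)
    refine (hS.union hT).subset fun p hp => ?_
    by_contra h
    rw [Set.mem_union, not_or] at h
    refine hp ?_
    have a0 := h0 p h.1
    have a1 := h1 p h.2
    have : nr p v = 1 := by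
      refine le_antisymm (max_le a0.1 a1.1) ?_
      by_cases e : v 0 = 0
      · exact le_max_of_le_right
          (a1.2 fun e' => hv (funext (Fin.forall_fin_two.2 ⟨e, e'⟩))).ge
      · exact le_max_of_le_left (a0.2 e).ge
    change Real.log (nr p v) = 0
    rw [this, Real.log_one]
  · have h1 : ∀ w : InfinitePlace K, 0 < max (w (v 0)) (w (v 1)) := fun w => HT.pos hv w.1
    have h2 : ∀ p : Pr K, 0 < nr p v := fun p => HT.pos hv (FinitePlace.mk p).1
    have h3 : ∏ᶠ w : FinitePlace K, max (w (v 0)) (w (v 1)) = ∏ᶠ p : Pr K, nr p v :=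
      (finprod_comp_equiv (FinitePlace.equivHeightOneSpectrum (K := K)).symm).symm
    rw [Height.logHeight_eq_log_mulHeight, NumberField.mulHeight_eq hv]
    simp only [HT.sup2]
    rw [h3, Real.log_mul (Finset.prod_pos fun w _ => pow_pos (h1 w) _).ne'
      (finprod_induction (fun x : ℝ => 0 < x) one_pos (fun _ _ => mul_pos) h2).ne',
      Real.log_finprod h2, Real.log_prod fun w _ => (pow_pos (h1 w) _).ne']
    simp only [Real.log_pow]

end Pool.Agent.MP_542436_nt.H40
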