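import Mathlib

/-! Statements of the pieces: from the unit equation with a defect to points of the product of two
lines. -/

set_option autoImplicit false

namespace Pool.Agent.MP_542436_nt.H40

open NumberField IsDedekindDomain MvPolynomial

/-- nonzero prime ideals -/
abbrev Pr (K : Type) [Field K] : Type := HeightOneSpectrum (RingOfIntegers K)

/-- logarithm of the norm of a prime -/
noncomputable def lN {K : Type} [Field K] [NumberField K] (p : Pr K) : ℝ :=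
  Real.log ((Ideal.absNorm p.asIdeal : ℕ) : ℝ)

/-- local norm of a pair -/
noncomputable def nr {K : Type} [Field K] [NumberField K] (p : Pr K) (v : Fin 2 → K) : ℝ :=
  max (FinitePlace.mk p (v 0)) (FinitePlace.mk p (v 1))

/-- determinant of two pairs -/
def dt {A : Type} [CommRing A] (u v : Fin 2 → A) : A := u 0 * v 1 - u 1 * v 0

/-- bidegrees of the four variables -/
def bw : Fin 2 ⊕ Fin 2 → ℕ × ℕ :=
  Sum.elim (fun _ : Fin 2 => ((1, 0) : ℕ × ℕ)) (fun _ : Fin 2 => ((0, 1) : ℕ × ℕ))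

/-- the truncated counting function -/
noncomputable def N1 {K : Type} [Field K] [NumberField K] (F : MvPolynomial (Fin 2 ⊕ Fin 2) K)
    (q r : ℕ) (s t : Fin 2 → K) : ℝ :=
  ∑ᶠ p : Pr K, min (lN p)
    (-Real.log (FinitePlace.mk p (eval (Sum.elim s t) F) / (nr p s ^ q * nr p t ^ r)))

/-- the unit equation with a defect -/
def RowABCD : Prop :=
  ∀ (K : Type) [Field K] [NumberField K] (ε : ℝ), 0 < ε → ∃ C : ℝ,
    ∀ (x : K) (S : Finset (Pr K)) (D : ℝ), x ≠ 0 → x ≠ 1 →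
      (∀ U : Finset (Pr K), Disjoint U S → ∑ p ∈ U, (|Real.log (FinitePlace.mk p x)| +
        |Real.log (FinitePlace.mk p (x - 1))|) ≤ D) →
      Height.logHeight₁ x ≤ C * (1 + D) * Real.exp (ε * ∑ p ∈ S, lN p)

/-- the height as a sum of logarithms -/
def RowHT : Prop :=
  ∀ (K : Type) [Field K] [NumberField K] (v : Fin 2 → K), v ≠ 0 →
    (Function.support fun p : Pr K => Real.log (nr p v)).Finite ∧
    Height.logHeight v =
      (∑ w : InfinitePlace K, (w.mult : ℝ) * Real.log (max (w (v 0)) (w (v 1)))) +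
        ∑ᶠ p : Pr K, Real.log (nr p v)

/-- the local distances of two points -/
def RowDET : Prop :=
  ∀ (K : Type) [Field K] [NumberField K] (u v : Fin 2 → K), dt u v ≠ 0 →
    (∀ p : Pr K, FinitePlace.mk p (dt u v) ≤ nr p u * nr p v) ∧ ∀ U : Finset (Pr K),
      ∑ p ∈ U, (Real.log (nr p u) + Real.log (nr p v) - Real.log (FinitePlace.mk p (dt u v))) ≤
        Height.logHeight u + Height.logHeight v + Module.finrank ℚ K

/-- three moving points on the line -/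
def RowPTS : Prop :=
  ∀ (K : Type) [Field K] [NumberField K] (ε : ℝ), 0 < ε → ∃ C : ℝ, 0 ≤ C ∧
    ∀ (t : Fin 2 → K) (τ : Fin 3 → Fin 2 → K) (S : Finset (Pr K)),
      (∀ i j, i ≠ j → dt (τ i) (τ j) ≠ 0) → (∀ i, dt t (τ i) ≠ 0) →
      (∀ p ∉ S, ∀ i, nr p t * nr p (τ i) ≤ FinitePlace.mk p (dt t (τ i))) →
      Height.logHeight t ≤
        C * (1 + ∑ i, Height.logHeight (τ i)) * Real.exp (ε * ∑ p ∈ S, lN p)

/-- primes in an extension -/
def RowBC : Prop :=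
  ∀ (K L : Type) [Field K] [NumberField K] [Field L] [NumberField L] [Algebra K L],
    ∃ dn : Pr L → Pr K, Function.Surjective dn ∧
      (∀ P : Pr L, ∃ e : ℕ, 1 ≤ e ∧
        ∀ x : K, FinitePlace.mk P (algebraMap K L x) = FinitePlace.mk (dn P) x ^ e) ∧
      ∀ p : Pr K, ∃ T : Finset (Pr L), (∀ P, dn P = p → P ∈ T) ∧
        ∑ P ∈ T, lN P ≤ Module.finrank ℚ L * lN p

/-- heights in an extension -/
def RowBCH : Prop :=
  ∀ (K L : Type) [Field K] [NumberField K] [Field L] [NumberField L] [Algebra K L]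
    (v : Fin 2 → K), Height.logHeight v ≤ Height.logHeight fun i => algebraMap K L (v i)

/-- a form is small near one of its zeros -/
structure RowLOC : Prop where
  fst : ∀ (K : Type) [Field K] [NumberField K] (p : Pr K) (F : MvPolynomial (Fin 2 ⊕ Fin 2) K)
    (q r : ℕ) (s σ t : Fin 2 → K), F.IsWeightedHomogeneous bw (q, r) →
    (∀ d, FinitePlace.mk p (coeff d F) ≤ 1) → σ ≠ 0 → s ≠ 0 → t ≠ 0 →
    eval (Sum.elim σ t) F = 0 → FinitePlace.mk p (dt s σ) < nr p s * nr p σ →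
    FinitePlace.mk p (eval (Sum.elim s t) F) < nr p s ^ q * nr p t ^ r
  snd : ∀ (K : Type) [Field K] [NumberField K] (p : Pr K) (F : MvPolynomial (Fin 2 ⊕ Fin 2) K)
    (q r : ℕ) (s t τ : Fin 2 → K), F.IsWeightedHomogeneous bw (q, r) →
    (∀ d, FinitePlace.mk p (coeff d F) ≤ 1) → τ ≠ 0 → s ≠ 0 → t ≠ 0 →
    eval (Sum.elim s τ) F = 0 → FinitePlace.mk p (dt t τ) < nr p t * nr p τ →
    FinitePlace.mk p (eval (Sum.elim s t) F) < nr p s ^ q * nr p t ^ r
  fst0 : ∀ (K : Type) [Field K] (F : MvPolynomial (Fin 2 ⊕ Fin 2) K) (q r : ℕ)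
    (s σ t : Fin 2 → K), F.IsWeightedHomogeneous bw (q, r) → σ ≠ 0 →
    eval (Sum.elim σ t) F = 0 → dt s σ = 0 → s ≠ 0 → eval (Sum.elim s t) F = 0
  snd0 : ∀ (K : Type) [Field K] (F : MvPolynomial (Fin 2 ⊕ Fin 2) K) (q r : ℕ)
    (s t τ : Fin 2 → K), F.IsWeightedHomogeneous bw (q, r) → τ ≠ 0 →
    eval (Sum.elim s τ) F = 0 → dt t τ = 0 → t ≠ 0 → eval (Sum.elim s t) F = 0

/-- the truncated counting function bounds the norm of the primes of contact -/
def RowNC : Prop :=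
  ∀ (K : Type) [Field K] [NumberField K] (F : MvPolynomial (Fin 2 ⊕ Fin 2) K) (q r : ℕ),
    F.IsWeightedHomogeneous bw (q, r) → ∃ C : ℝ, ∀ s t : Fin 2 → K, s ≠ 0 → t ≠ 0 →
      eval (Sum.elim s t) F ≠ 0 → ∃ S : Finset (Pr K),
        (∀ p ∉ S, (∀ d, FinitePlace.mk p (coeff d F) ≤ 1) ∧
          nr p s ^ q * nr p t ^ r ≤ FinitePlace.mk p (eval (Sum.elim s t) F)) ∧
        ∑ p ∈ S, lN p ≤ N1 F q r s t + C

/-- descent of the exceptional fibres -/
def RowGG : Prop :=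
  ∀ (K L : Type) [Field K] [Field L] [Algebra K L] (W : MvPolynomial (Fin 2) L) (e : ℕ),
    W ≠ 0 → W.IsHomogeneous e → ∃ G : MvPolynomial (Fin 2 ⊕ Fin 2) K, G ≠ 0 ∧
      G.IsWeightedHomogeneous bw (e, 0) ∧ ∀ s t : Fin 2 → K,
        eval (fun i => algebraMap K L (s i)) W = 0 → eval (Sum.elim s t) G = 0

/-- the theorem -/
def RowMAIN : Prop :=
  ∀ (K L : Type) [Field K] [NumberField K] [Field L] [NumberField L] [Algebra K L]
    (F : MvPolynomial (Fin 2 ⊕ Fin 2) K) (q r : ℕ), F.IsWeightedHomogeneous bw (q, r) →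
    (∃ σ : Fin 3 → Fin 2 → L, (∀ i j, i ≠ j → dt (σ i) (σ j) ≠ 0) ∧
      ∀ (i : Fin 3) (t : Fin 2 → L), aeval (Sum.elim (σ i) t) F = 0) →
    (r ≤ 2 ∨ ∃ (τ : Fin 3 → Fin 2 → MvPolynomial (Fin 2) L) (a : Fin 3 → ℕ),
      (∀ i k, (τ i k).IsHomogeneous (a i)) ∧ (∀ i j, i ≠ j → dt (τ i) (τ j) ≠ 0) ∧
      ∀ (i : Fin 3) (s : Fin 2 → L), aeval (Sum.elim s fun k => eval s (τ i k)) F = 0) →
    ∃ (G : MvPolynomial (Fin 2 ⊕ Fin 2) K) (a b : ℕ), G ≠ 0 ∧
      G.IsWeightedHomogeneous bw (a, b) ∧ ∀ ε : ℝ, 0 < ε → ∃ C : ℝ, ∀ s t : Fin 2 → K,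
        s ≠ 0 → t ≠ 0 → eval (Sum.elim s t) G ≠ 0 → eval (Sum.elim s t) F ≠ 0 →
        ((q : ℝ) - 2) * Height.logHeight s + ((r : ℝ) - 2) * Height.logHeight t ≤
          C * Real.exp (ε * N1 F q r s t)

end Pool.Agent.MP_542436_nt.H40
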